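import Pool.Agent.Run7.h454.Coll

set_option autoImplicit false

/-!
# Projective planes of order 2 or 3 modulo 4 without nontrivial collineations

A finite projective plane of order congruent to `2` or `3` modulo `4` whose only collineation is the
identity has an odd translation, and a quadrangle which lies in no subplane `PG(2, K)`, `K` a finite
field of odd characteristic.
-/

namespace Pool.Agent.Results.MP_595dad_co.RigidPlanes

/-- The points `a`, `b`, `c` lie on a common line. -/
def Collinear {P : Type} (L : Type) [Membership P L] (a b c : P) : Prop :=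
  ∃ k : L, a ∈ k ∧ b ∈ k ∧ c ∈ k

/-- The permutation `τ` of the points of the line `a` is the product of the perspectivity with
centre `X` from `a` to `b` and the perspectivity with centre `Z` from `b` back to `a`: every point
`p` of `a` has a point `q` of `b` such that `X, p, q` are collinear and `Z, q, τ p` are
collinear. -/
def IsProjectivity {P L : Type} [Membership P L] (X Z : P) (a b : L)
    (τ : Equiv.Perm {p : P // p ∈ a}) : Prop :=
  ∀ p : {p : P // p ∈ a}, ∃ q : P, q ∈ b ∧ Collinear L X p.1 q ∧ Collinear L Z q (τ p).1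

/-- The permutation `τ` of a finite set is even. -/
def IsEven {α : Type} [Finite α] (τ : Equiv.Perm α) : Prop :=
  @Equiv.Perm.sign α (Classical.decEq α) (Fintype.ofFinite α) τ = 1

/-- There is an odd translation: there are lines `a`, `b` and `l` through a point `Y`, with `a` and
`b` different from `l`, and points `X`, `Z` of `l` different from `Y`, such that the product of the
perspectivity with centre `X` from `a` to `b` and the perspectivity with centre `Z` from `b` back
to `a` is an odd permutation of the points of `a`. -/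
def HasOddTranslation (P L : Type) [Membership P L] [Finite P] : Prop :=
  ∃ (X Y Z : P) (l a b : L), X ∈ l ∧ Y ∈ l ∧ Z ∈ l ∧ X ≠ Y ∧ Z ≠ Y ∧ Y ∈ a ∧ Y ∈ b ∧ a ≠ l ∧
    b ≠ l ∧ ∃ τ : Equiv.Perm {p : P // p ∈ a}, IsProjectivity X Z a b τ ∧ ¬ IsEven τ

/-- The points `a`, `b`, `c`, `d` lie in a subplane which is isomorphic to `PG(2, K)` for a finite
field `K` of odd characteristic. -/
def InOddClassical {P : Type} (L : Type) [Membership P L] (a b c d : P) : Prop :=
  ∃ (K : Type) (_ : Field K) (_ : Finite K) (f : Projectivization K (Fin 3 → K) → P)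
    (g : {W : Submodule K (Fin 3 → K) // Module.finrank K W = 2} → L),
    (2 : K) ≠ 0 ∧ Function.Injective f ∧ Function.Injective g ∧
    (∀ x W, f x ∈ g W ↔ x.submodule ≤ W.1) ∧
    a ∈ Set.range f ∧ b ∈ Set.range f ∧ c ∈ Set.range f ∧ d ∈ Set.range f

/-- A finite projective plane of order congruent to 2 or 3 modulo 4 without nontrivial collineation
has an odd translation, and a quadrangle in no desarguesian subplane of odd order. -/
theorem result (P L : Type) [Membership P L] [Configuration.ProjectivePlane P L] [Finite P]
    [Finite L] (hn : Configuration.ProjectivePlane.order P L % 4 = 2 ∨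
      Configuration.ProjectivePlane.order P L % 4 = 3)
    (h : ¬ ∃ σ : P ≃ P, ∃ τ : L ≃ L, σ ≠ Equiv.refl P ∧ ∀ (p : P) (l : L), p ∈ l ↔ σ p ∈ τ l) :
    HasOddTranslation P L ∧
      ∃ a b c d : P, ¬ Collinear L a b c ∧ ¬ Collinear L a b d ∧ ¬ Collinear L a c d ∧
        ¬ Collinear L b c d ∧ ¬ InOddClassical L a b c d := by
  have key : ¬ Pool.Agent.Run7.H454.EvenTranslations P L := by
    intro hE
    have hB : Pool.Agent.Run7.H454.BR P L := Pool.Agent.Run7.H454.BR_of_even hE
    rcases hn with hn | hn
    · exact absurd hn (Pool.Agent.Run7.H454.not_two hB)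
    · obtain ⟨F, fld, f, g, hfg⟩ := Pool.Agent.Run7.H454.iso_of_HH ⟨hB, hn⟩
      exact h (Pool.Agent.Run7.H454.collineation_of_iso f g hfg)
  constructor
  · by_contra hcon
    apply key
    intro X Y Z l a b hX hY hZ hXY hZY hYa hYb hal hbl τ hτ
    by_contra ht
    exact hcon ⟨X, Y, Z, l, a, b, hX, hY, hZ, hXY, hZY, hYa, hYb, hal, hbl, τ, hτ, ht⟩
  · by_contra hcon
    apply key
    apply Pool.Agent.Run7.H454.even_of_copies
    intro a b c d h1 h2 h3 h4
    by_contra hno
    refine hcon ⟨a, b, c, d, h1, h2, h3, h4, ?_⟩
    rintro ⟨K, iK, fK, f, g, h20, hf, -, hfg, hr⟩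
    apply hno
    have hp : (ringChar K).Prime := CharP.char_is_prime K (ringChar K)
    refine ⟨K, iK, ringChar K, CharP.cast_eq_zero K _, hp.odd_of_ne_two ?_, f, g, hf, hfg, hr⟩
    intro h2
    apply h20
    have := CharP.cast_eq_zero K (ringChar K)
    rw [h2] at this
    exact_mod_cast this

end Pool.Agent.Results.MP_595dad_co.RigidPlanes
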